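import Pool.Agent.H985Z.SC.Spec

/-! The domain of a resistance form is an algebra. -/

set_option autoImplicit false

open Filter Topology Set
open scoped RealInnerProductSpace

namespace Pool.Agent.H944Z.SC

open Pool.Agent.H985Z.SC

/-- bounded nets have weak limits along ultrafilters -/
theorem weak_lim {H : Type} [NormedAddCommGroup H] [InnerProductSpace ℝ H] [CompleteSpace H]
    {ι : Type} (U : Ultrafilter ι) (u : ι → H) (M : ℝ) (hM : ∀ᶠ i in (U : Filter ι), ‖u i‖ ≤ M) :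
    ∃ p : H, ∀ k : H, Tendsto (fun i => ⟪u i, k⟫) U (𝓝 ⟪p, k⟫) := by
  have hc := WeakDual.isCompact_closedBall (𝕜 := ℝ) (0 : StrongDual ℝ H) M
  let v : ι → WeakDual ℝ H := fun i => StrongDual.toWeakDual (InnerProductSpace.toDual ℝ H (u i))
  have hv : ((U.map v : Ultrafilter _) : Filter _) ≤
      𝓟 (WeakDual.toStrongDual ⁻¹' Metric.closedBall (0 : StrongDual ℝ H) M) := by
    rw [le_principal_iff, Ultrafilter.coe_map, mem_map]
    filter_upwards [hM] with i hi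
    simp only [mem_preimage, Metric.mem_closedBall, dist_zero_right, v]
    have : WeakDual.toStrongDual (StrongDual.toWeakDual (InnerProductSpace.toDual ℝ H (u i))) =
        InnerProductSpace.toDual ℝ H (u i) := rfl
    rw [this]
    simpa using hi
  obtain ⟨L, -, hL⟩ := hc.ultrafilter_le_nhds (U.map v) hv
  refine ⟨(InnerProductSpace.toDual ℝ H).symm (WeakDual.toStrongDual L), fun k => ?_⟩
  have h1 : Tendsto v U (𝓝 L) := hL
  have h2 := ((WeakDual.eval_continuous (𝕜 := ℝ) k).tendsto L).comp h1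
  rw [InnerProductSpace.toDual_symm_apply]
  exact h2

variable {X : Type} [MetricSpace X] [CompactSpace X] {H : Type} [NormedAddCommGroup H]
  [InnerProductSpace ℝ H] [CompleteSpace H]

theorem mem_of_bdd (R : RF X H) (P : Finset X → (X → ℝ) →ₗ[ℝ] H)
    (hP : ∀ V, R.o ∈ V → ∀ φ : X → ℝ, ∀ x ∈ V, R.ι (P V φ) x = φ x)
    (φ : C(X, ℝ)) (M : ℝ) (hM : ∀ᶠ V in atTop, ‖P V φ‖ ≤ M) : ∃ p : H, R.ι p = φ := by
  classical
  let U : Ultrafilter (Finset X) := Ultrafilter.of atTop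
  have hU : (U : Filter (Finset X)) ≤ atTop := Ultrafilter.of_le _
  obtain ⟨p, hp⟩ := weak_lim U (fun V => P V φ) M (hU hM)
  refine ⟨p, ?_⟩
  ext x
  let k : H := (InnerProductSpace.toDual ℝ H).symm ((ContinuousMap.evalCLM ℝ x).comp R.ι)
  have hk : ∀ f : H, ⟪f, k⟫ = R.ι f x := by
    intro f
    rw [real_inner_comm, InnerProductSpace.toDual_symm_apply]
    rfl
  have h1 := hp k
  rw [hk] at h1
  have h2 : Tendsto (fun V => ⟪P V φ, k⟫) U (𝓝 (φ x)) := by
    apply tendsto_const_nhds.congr'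
    have : ∀ᶠ V in (atTop : Filter (Finset X)), ({R.o, x} : Finset X) ≤ V := eventually_ge_atTop _
    filter_upwards [hU this] with V hV
    rw [hk, hP V (hV (by simp)) φ x (hV (by simp))]
  exact tendsto_nhds_unique h1 h2

theorem sq_mem (hD : S_DISC) (R : RF X H) (f : H) : ∃ p : H, R.ι p = R.ι f * R.ι f := by
  classical
  obtain ⟨P, c, hc, hP, hE, hlim⟩ := hD X H R
  set φ : C(X, ℝ) := R.ι f with hφ
  set B : ℝ := ‖φ‖ with hB
  have hb : ∀ x, |φ x| ≤ B := fun x => φ.norm_coe_le_norm x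
  have hB0 : 0 ≤ B := norm_nonneg _
  have h1 : ∀ᶠ V in (atTop : Filter (Finset X)), ‖P V φ‖ ≤ ‖f‖ + 1 := by
    have := (continuous_norm.tendsto f).comp (hlim f)
    exact this.eventually (eventually_le_nhds (by linarith))
  have h2 : ∀ᶠ V in (atTop : Filter (Finset X)), ({R.o} : Finset X) ≤ V := eventually_ge_atTop _
  refine mem_of_bdd R P hP (φ * φ) (2 * B * (‖f‖ + 1) + B ^ 2) ?_
  filter_upwards [h1, h2] with V hV1 hV2
  have ho : R.o ∈ V := hV2 (by simp)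
  have e1 := hE V ho (φ * φ : C(X, ℝ)) (φ * φ : C(X, ℝ))
  have e2 := hE V ho φ φ
  have e3 : R.E (P V (φ * φ : C(X, ℝ))) (P V (φ * φ : C(X, ℝ))) ≤
      4 * B ^ 2 * R.E (P V φ) (P V φ) := by
    rw [e1, e2, Finset.mul_sum]
    refine Finset.sum_le_sum fun x _ => ?_
    rw [Finset.mul_sum]
    refine Finset.sum_le_sum fun y _ => ?_
    have hx := abs_le.1 (hb x)
    have hy := abs_le.1 (hb y)
    have hs : (φ x + φ y) ^ 2 ≤ 4 * B ^ 2 := by nlinarith
    have : ((φ * φ : C(X, ℝ)) x - (φ * φ : C(X, ℝ)) y) *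
        ((φ * φ : C(X, ℝ)) x - (φ * φ : C(X, ℝ)) y) =
        (φ x + φ y) ^ 2 * ((φ x - φ y) * (φ x - φ y)) := by
      simp only [ContinuousMap.mul_apply]; ring
    rw [this]
    have h0 : 0 ≤ c V x y * ((φ x - φ y) * (φ x - φ y)) :=
      mul_nonneg (hc V x y) (mul_self_nonneg _)
    nlinarith
  have e4 : R.E (P V φ) (P V φ) ≤ (‖f‖ + 1) ^ 2 := by
    unfold RF.E
    rw [real_inner_self_eq_norm_sq]
    have := mul_self_nonneg (R.ι (P V φ) R.o)
    have h3 := norm_nonneg (P V φ)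
    nlinarith
  have e5 : ‖P V (φ * φ : C(X, ℝ))‖ ^ 2 =
      R.E (P V (φ * φ : C(X, ℝ))) (P V (φ * φ : C(X, ℝ))) + (φ R.o * φ R.o) ^ 2 := by
    unfold RF.E
    rw [real_inner_self_eq_norm_sq, hP V ho _ _ ho]
    simp only [ContinuousMap.mul_apply]; ring
  have e6 : (φ R.o * φ R.o) ^ 2 ≤ (B ^ 2) ^ 2 := by
    have := abs_le.1 (hb R.o)
    have h4 : φ R.o * φ R.o ≤ B ^ 2 := by nlinarith
    have h5 := mul_self_nonneg (φ R.o)
    nlinarith
  have hf0 : 0 ≤ ‖f‖ + 1 := by positivity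
  have e7 : 4 * B ^ 2 * R.E (P V φ) (P V φ) ≤ (2 * B * (‖f‖ + 1)) ^ 2 := by
    have : 0 ≤ 4 * B ^ 2 := by positivity
    nlinarith
  have hA : 0 ≤ 2 * B * (‖f‖ + 1) := by positivity
  have hB2 : 0 ≤ B ^ 2 := by positivity
  refine pow_le_pow_left₀ (norm_nonneg _) (le_refl _) 2 |>.trans ?_ |> fun h =>
    (abs_le_of_sq_le_sq' (b := 2 * B * (‖f‖ + 1) + B ^ 2) h (by positivity)).2
  nlinarith [mul_nonneg hA hB2]

end Pool.Agent.H944Z.SC

namespace Pool.Agent.H944Z.SC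

open Pool.Agent.H985Z.SC

theorem mul (hD : S_DISC) : S_MUL := by
  intro X _ _ H _ _ _ R f g
  obtain ⟨p, hp⟩ := sq_mem hD R (f + g)
  obtain ⟨q, hq⟩ := sq_mem hD R (f - g)
  refine ⟨(1 / 4 : ℝ) • (p - q), ?_⟩
  rw [map_smul, map_sub, hp, hq, map_add, map_sub]
  ext x
  simp only [ContinuousMap.smul_apply, ContinuousMap.sub_apply, ContinuousMap.mul_apply,
    ContinuousMap.add_apply, smul_eq_mul]
  ring

end Pool.Agent.H944Z.SC
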